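import Pool.Agent.V11172.PT.Dis4

set_option autoImplicit false

/-!
# Parity patterns of partitions with no part congruent to 3 modulo 6 (MP_57720d_nt)

Let `a(n)` be the number of partitions of `n` with no part `≡ 3 (mod 6)`. The numbers `a(4 n + 2)` and
`a(4 n + 3)` are even (Merca). For the two other classes modulo 4 we prove:
* joint patterns: there is `C` such that every combination
  `∑_{r ∈ {0,1}} ∑_{i ≤ L} c(r, i) a(4 (n + i) + r)` modulo 2 with `c ≠ 0` takes both values for
  `n ∈ [A, C (A + L + 1)]`, for all `A`;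
* counting: for each class `r ∈ {0, 1}` and every `c ≠ 0` the values `∑_{i ≤ L} c(i) a(4 (n + i) + r)`
  are odd for at least `x ^ (1/2 - ε)` and even for at least `√x / 48` of the `n ≤ x`, for large `x`.

Method. The dissection `∑ a(n) q^n = f_8 / f_12 + q f_24 / f_4` modulo 2 is proved by an involution on
the solutions of `x^2 + 3 y^2 = 4 (2 n + 1)` in odd positive integers. So `a(4 n)` and `a(4 n + 1)` are
the coefficients of `f_2 / f_3` and `f_6 / f_1` modulo 2. Joint patterns: the theorem on eta-quotients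
with distinct nonzero `s` (here `s = -1` and `s = 5`). Counting: for `H` the series of a pattern of
`f_a / f_b` one has `H f_b = Q f_a` with a polynomial `Q` of degree at most `L`, and the right side is
supported on the clusters `a g_k + {0, …, L}`, see the result for the regular partitions.
-/

namespace Pool.Agent.Results.MP_57720d_nt.JointPatterns

/-- the number of partitions of `n` with no part congruent to 3 modulo 6 -/
def a (n : ℕ) : ℕ :=
  ((Finset.univ : Finset (Nat.Partition n)).filter fun p => ∀ i ∈ p.parts, i % 6 ≠ 3).card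

/-- the value modulo 2 of the pattern `c` at `n`, in the class `r` modulo 4 -/
def pat (r L : ℕ) (c : Fin (L + 1) → ZMod 2) (n : ℕ) : ZMod 2 :=
  ∑ i : Fin (L + 1), c i * (a (4 * (n + i) + r) : ZMod 2)

theorem result :
    (∃ C : ℕ, ∀ (L : ℕ) (c : Fin 2 → Fin (L + 1) → ZMod 2), c ≠ 0 → ∀ (κ : ZMod 2) (A : ℕ),
      ∃ n, A ≤ n ∧ n ≤ C * (A + L + 1) ∧ pat 0 L (c 0) n + pat 1 L (c 1) n = κ) ∧
    ∀ r < 2, ∀ (L : ℕ) (c : Fin (L + 1) → ZMod 2), c ≠ 0 →
      (∀ ε : ℝ, 0 < ε → ∃ x0 : ℕ, ∀ x : ℕ, x0 ≤ x → (x : ℝ) ^ (1 / 2 - ε) ≤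
        (((Finset.range (x + 1)).filter fun n => pat r L c n = 1).card : ℝ)) ∧
      ∃ x0 : ℕ, ∀ x : ℕ, x0 ≤ x → Real.sqrt x / 48 ≤
        (((Finset.range (x + 1)).filter fun n => pat r L c n = 0).card : ℝ) := by
  refine ⟨?_, fun r hr L c hc => Pool.Agent.V11172.PT.no3_count ⟨r, hr⟩ L c hc⟩
  obtain ⟨C, hC⟩ := Pool.Agent.V11172.PT.no3_joint
  refine ⟨C, fun L c hc κ A => ?_⟩
  obtain ⟨n, h1, h2, h3⟩ := hC L c hc κ A
  refine ⟨n, h1, h2, ?_⟩
  rw [Fin.sum_univ_two] at h3
  exact h3

end Pool.Agent.Results.MP_57720d_nt.JointPatterns
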